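import Pool.Agent.H57.SM.Final

/-!
# Sudakov minoration for unconditional log-concave vectors

Kept here (no hand-in): it is a special case of `MP_920d63_pr.BlockSymmetric`. Its old claim:

Proves: There is one constant kappa>0 such that for every n>=0, every log-concave probability law mu on R^n (Borell's inequality for compact sets) that is unconditional (invariant under every change of signs of the coordinates), every p>=1, every nonempty finite V in R^n with |V| >= e^p and every real A with A <= (E|<v-w,X>|^p)^{1/p} for all distinct v,w in V, one has kappa*A <= E max_{v,w in V} <v-w,X>, where X has law mu.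
Definitions: none
Relation: Partial answer to Q1 (not a full one): it proves the positive form of Q1 for all unconditional log-concave vectors, i.e. SMP(kappa) with kappa independent of n and X; the hypothesis beyond the problem's is coordinate sign invariance. For unconditional X the problem file lists only SMP(1/(C log(n+1))) and the case |V| >= e^{p^2} (Latala 2014); independent coordinates: Latala-Tkocz 2015; we also recall work of Bednorz on the Sudakov minoration for products of blocks with densities depending on norms, which does not contain it. General (non-unconditional) log-concave vectors remain open.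

The statement is the frozen statement of the problem with one more hypothesis: the law is
invariant under all changes of signs of the coordinates (the vector is unconditional).
-/

set_option autoImplicit false

open MeasureTheory
open scoped Pointwise

namespace Pool.Agent.H57.Kept.UncondSMP

open Pool.Agent.H57.SM

/-- the inner product in coordinates -/
theorem inner_eq {n : ℕ} (v w x : EuclideanSpace ℝ (Fin n)) :
    @inner ℝ _ _ (v - w) x = ∑ i, (v.ofLp i - w.ofLp i) * x.ofLp i := by
  rw [PiLp.inner_apply]
  apply Finset.sum_congr rfl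
  intro i _
  simp [mul_comm]

theorem ulc_of {n : ℕ} {μ : Measure (EuclideanSpace ℝ (Fin n))} (hp : IsProbabilityMeasure μ)
    (hlc : ∀ K L : Set (EuclideanSpace ℝ (Fin n)), IsCompact K → IsCompact L →
      ∀ t : ℝ, t ∈ Set.Ioo (0 : ℝ) 1 → μ K ^ t * μ L ^ (1 - t) ≤ μ (t • K + (1 - t) • L))
    (hs : ∀ ε : Fin n → ℝ, (∀ i, ε i = 1 ∨ ε i = -1) →
      μ.map (fun x => WithLp.toLp 2 (fun i => ε i * x.ofLp i)) = μ) :
    ULC (μ.map (WithLp.ofLp : EuclideanSpace ℝ (Fin n) → Fin n → ℝ)) := by
  have hm : Measurable (WithLp.ofLp : EuclideanSpace ℝ (Fin n) → Fin n → ℝ) :=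
    (PiLp.continuous_ofLp 2 _).measurable
  have hm' : Measurable (WithLp.toLp 2 : (Fin n → ℝ) → EuclideanSpace ℝ (Fin n)) :=
    (PiLp.continuous_toLp 2 _).measurable
  refine ⟨Measure.isProbabilityMeasure_map hm.aemeasurable, ?_, ?_⟩
  · intro K L hK hL t ht
    have hKm := hK.measurableSet
    have hLm := hL.measurableSet
    have hKc : IsCompact ((WithLp.toLp 2 : (Fin n → ℝ) → EuclideanSpace ℝ (Fin n)) '' K) :=
      hK.image (PiLp.continuous_toLp 2 _)
    have hLc : IsCompact ((WithLp.toLp 2 : (Fin n → ℝ) → EuclideanSpace ℝ (Fin n)) '' L) :=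
      hL.image (PiLp.continuous_toLp 2 _)
    have h1 := hlc _ _ hKc hLc t ht
    have e : ∀ K : Set (Fin n → ℝ), (WithLp.toLp 2 : (Fin n → ℝ) → EuclideanSpace ℝ (Fin n)) '' K =
        WithLp.ofLp ⁻¹' K := by
      intro K
      ext x
      constructor
      · rintro ⟨y, hy, rfl⟩
        exact hy
      · intro hx
        exact ⟨x.ofLp, hx, rfl⟩
    rw [Measure.map_apply hm hKm, Measure.map_apply hm hLm, ← e, ← e]
    refine h1.trans ?_
    refine le_trans (measure_mono ?_) (Measure.le_map_apply hm.aemeasurable _)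
    intro z hz
    rw [Set.mem_add] at hz
    obtain ⟨a, ha, b, hb, rfl⟩ := hz
    obtain ⟨a', ha', rfl⟩ := Set.mem_smul_set.1 ha
    obtain ⟨b', hb', rfl⟩ := Set.mem_smul_set.1 hb
    obtain ⟨x, hx, rfl⟩ := ha'
    obtain ⟨y, hy, rfl⟩ := hb'
    exact ⟨x, hx, y, hy, rfl⟩
  · intro ε
    have h1 := hs (fun i => sg (ε i)) (fun i => by
      cases ε i
      · right; rfl
      · left; rfl)
    have hsm : Measurable (fun (x : Fin n → ℝ) (i : Fin n) => sg (ε i) * x i) :=
      (sgn_cont ε).measurable
    rw [Measure.map_map hsm hm]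
    conv_rhs => rw [← h1]
    have hsm' : Measurable (fun x : EuclideanSpace ℝ (Fin n) =>
        (WithLp.toLp 2 (fun i => sg (ε i) * x.ofLp i) : EuclideanSpace ℝ (Fin n))) :=
      hm'.comp (hsm.comp hm)
    rw [Measure.map_map hm hsm']
    rfl

/-- **Sudakov minoration principle for unconditional log-concave vectors**, with a universal
constant. -/
theorem result :
    ∃ κ : ℝ, 0 < κ ∧
      ∀ n : ℕ, ∀ μ : Measure (EuclideanSpace ℝ (Fin n)), IsProbabilityMeasure μ →
        (∀ K L : Set (EuclideanSpace ℝ (Fin n)), IsCompact K → IsCompact L →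
          ∀ t : ℝ, t ∈ Set.Ioo (0 : ℝ) 1 →
            μ K ^ t * μ L ^ (1 - t) ≤ μ (t • K + (1 - t) • L)) →
        (∀ ε : Fin n → ℝ, (∀ i, ε i = 1 ∨ ε i = -1) →
          μ.map (fun x => WithLp.toLp 2 (fun i => ε i * x.ofLp i)) = μ) →
        ∀ p : ℝ, 1 ≤ p →
          ∀ V : Finset (EuclideanSpace ℝ (Fin n)), ∀ hV : V.Nonempty,
            Real.exp p ≤ (V.card : ℝ) →
            ∀ A : ℝ,
              (∀ v ∈ V, ∀ w ∈ V, v ≠ w →
                A ≤ (∫ x, |@inner ℝ _ _ (v - w) x| ^ p ∂μ) ^ (1 / p)) →
              κ * A ≤ ∫ x, V.sup' hV (fun v => V.sup' hV (fun w => @inner ℝ _ _ (v - w) x)) ∂μ := by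
  classical
  refine ⟨1 / 10 ^ 12, by norm_num, ?_⟩
  intro n μ hprob hlc hs p hp V hV hcard A hsep
  have hm : Measurable (WithLp.ofLp : EuclideanSpace ℝ (Fin n) → Fin n → ℝ) :=
    (PiLp.continuous_ofLp 2 _).measurable
  set ν := μ.map (WithLp.ofLp : EuclideanSpace ℝ (Fin n) → Fin n → ℝ) with hν
  have h : ULC ν := ulc_of hprob hlc hs
  have hinj : Function.Injective (WithLp.ofLp : EuclideanSpace ℝ (Fin n) → Fin n → ℝ) :=
    WithLp.ofLp_injective 2
  set V' : Finset (Fin n → ℝ) := V.image WithLp.ofLp with hV'
  have hV'n : V'.Nonempty := hV.image _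
  -- the two suprema agree
  have hsup : ∀ x : EuclideanSpace ℝ (Fin n),
      V.sup' hV (fun v => V.sup' hV (fun w => @inner ℝ _ _ (v - w) x)) = Sup V' hV'n x.ofLp := by
    intro x
    apply le_antisymm
    · apply Finset.sup'_le
      intro v hv
      apply Finset.sup'_le
      intro w hw
      rw [inner_eq]
      exact le_Sup hV'n _ (Finset.mem_image_of_mem _ hv) (Finset.mem_image_of_mem _ hw)
    · apply Sup_le
      intro v' hv' w' hw'
      obtain ⟨v, hv, rfl⟩ := Finset.mem_image.1 hv'
      obtain ⟨w, hw, rfl⟩ := Finset.mem_image.1 hw'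
      rw [← inner_eq]
      have h1 : @inner ℝ _ _ (v - w) x ≤ V.sup' hV (fun w => @inner ℝ _ _ (v - w) x) :=
        Finset.le_sup' (fun w => @inner ℝ _ _ (v - w) x) hw
      have h2 : V.sup' hV (fun w => @inner ℝ _ _ (v - w) x) ≤
          V.sup' hV (fun v => V.sup' hV (fun w => @inner ℝ _ _ (v - w) x)) :=
        Finset.le_sup' (fun v => V.sup' hV (fun w => @inner ℝ _ _ (v - w) x)) hv
      exact h1.trans h2
  have hint : ∫ x, V.sup' hV (fun v => V.sup' hV (fun w => @inner ℝ _ _ (v - w) x)) ∂μ =
      ∫ y, Sup V' hV'n y ∂ν := by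
    rw [hν, integral_map hm.aemeasurable (Sup_cont hV'n).aestronglyMeasurable]
    exact integral_congr_ae (Filter.Eventually.of_forall hsup)
  rw [hint]
  rcases le_or_gt A 0 with hA | hA
  · have h0 : 0 ≤ ∫ y, Sup V' hV'n y ∂ν := integral_nonneg fun x => Sup_nonneg hV'n x
    have : 1 / 10 ^ 12 * A ≤ 0 := mul_nonpos_of_nonneg_of_nonpos (by norm_num) hA
    linarith
  · have hcard' : Real.exp p ≤ (V'.card : ℝ) := by
      rw [hV', Finset.card_image_of_injective _ hinj]
      exact hcard
    have hmain := ulc_smp h hp hA V' hV'n (by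
      intro v' hv' w' hw' hvw
      obtain ⟨v, hv, rfl⟩ := Finset.mem_image.1 hv'
      obtain ⟨w, hw, rfl⟩ := Finset.mem_image.1 hw'
      have hne : v ≠ w := fun e => hvw (by rw [e])
      rw [t27_nrm h _ hp]
      apply ENNReal.ofReal_le_ofReal
      refine (hsep v hv w hw hne).trans (le_of_eq ?_)
      congr 1
      rw [hν, integral_map hm.aemeasurable]
      · apply integral_congr_ae
        exact Filter.Eventually.of_forall fun x => by
          simp only []
          rw [inner_eq]
      · apply Measurable.aestronglyMeasurable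
        fun_prop) hcard'
    calc 1 / 10 ^ 12 * A = A / 10 ^ 12 := by ring
      _ ≤ _ := hmain

end Pool.Agent.H57.Kept.UncondSMP
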